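import Pool.Agent.R581.MoralReal
import Pool.Agent.R581.MoralInt

/-!
Selling one item to players with independent values: for every `α ∈ [0,1]` the revenue-optimal
`α`-moral mechanism is truthful.
-/

namespace Pool.Agent.Results.MP_e3b71d_lc.MoralEqualsTruthful

open Finset R581.Moral MeasureTheory intervalIntegral

/-- The grid value with index `k`, i.e. `k ε` with `ε = 1/m`. -/
noncomputable def val (m : ℕ) (k : Fin (m + 1)) : ℝ := ((k : ℕ) : ℝ) / m

/-- A deterministic direct mechanism for `n` players on the grid `{0, 1/m, …, 1}`: `f` is the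
allocation (`none`: no sale) and `p` are the payments, with individual rationality and no positive
transfers. -/
structure Mech (n m : ℕ) where
  f : (Fin n → Fin (m + 1)) → Option (Fin n)
  p : (Fin n → Fin (m + 1)) → Fin n → ℝ
  ir : ∀ b i, p b i ≤ if f b = some i then val m (b i) else 0
  npt : ∀ b i, 0 ≤ p b i

/-- The profit of player `i` with true value `w` at the bid profile `b`. -/
noncomputable def Mech.profit {n m : ℕ} (M : Mech n m) (i : Fin n) (b : Fin n → Fin (m + 1))
    (w : ℝ) : ℝ :=
  (if M.f b = some i then w else 0) - M.p b i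

/-- `M` is `α`-moral: whenever the deviation of player `i` from the truthful profile `v` to the
report `v'` has a positive gain, the gain is at most `α` times the total loss of the others. -/
def Mech.Moral {n m : ℕ} (M : Mech n m) (α : ℝ) : Prop :=
  ∀ (v : Fin n → Fin (m + 1)) (i : Fin n) (v' : Fin (m + 1)),
    0 < M.profit i (Function.update v i v') (val m (v i)) - M.profit i v (val m (v i)) →
    M.profit i (Function.update v i v') (val m (v i)) - M.profit i v (val m (v i)) ≤
      α * ∑ j ∈ univ.erase i, (M.profit j v (val m (v j)) -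
        M.profit j (Function.update v i v') (val m (v j)))

/-- The expected revenue under truthful reporting, when the values are independent and player `i`
has value index `k` with probability `F i k`. -/
noncomputable def Mech.rev {n m : ℕ} (M : Mech n m) (F : Fin n → Fin (m + 1) → ℝ) : ℝ :=
  ∑ v : Fin n → Fin (m + 1), (∏ i, F i (v i)) * ∑ i, M.p v i

section Basic

variable {n m : ℕ}

theorem val_nonneg (k : Fin (m + 1)) : 0 ≤ val m k := by unfold val; positivity

theorem val_le_one (hm : 0 < m) (k : Fin (m + 1)) : val m k ≤ 1 := by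
  unfold val
  rw [div_le_one (by exact_mod_cast hm)]
  exact_mod_cast (by have := k.2; omega)

theorem p_zero (M : Mech n m) (b : Fin n → Fin (m + 1)) (i : Fin n) (h : M.f b ≠ some i) :
    M.p b i = 0 := by
  have h1 := M.ir b i
  rw [if_neg h] at h1
  exact le_antisymm h1 (M.npt b i)

theorem profit_loser (M : Mech n m) (b : Fin n → Fin (m + 1)) (i : Fin n) (w : ℝ)
    (h : M.f b ≠ some i) : M.profit i b w = 0 := by
  unfold Mech.profit
  rw [if_neg h, p_zero M b i h, sub_zero]

theorem profit_winner (M : Mech n m) (b : Fin n → Fin (m + 1)) (i : Fin n) (w : ℝ)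
    (h : M.f b = some i) : M.profit i b w = w - M.p b i := by
  unfold Mech.profit
  rw [if_pos h]

theorem moral_one (M : Mech n m) {α : ℝ} (h0 : 0 ≤ α) (h1 : α ≤ 1) (h : M.Moral α) :
    M.Moral 1 := by
  intro v i v' hG
  have h2 := h v i v' hG
  refine h2.trans ?_
  rw [one_mul]
  set S := ∑ j ∈ univ.erase i, (M.profit j v (val m (v j)) -
        M.profit j (Function.update v i v') (val m (v j)))
  have hS : 0 ≤ S := by
    by_contra hcon
    push Not at hcon
    have : α * S ≤ 0 := mul_nonpos_of_nonneg_of_nonpos h0 hcon.le
    linarith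
  nlinarith

theorem moral_mono (M : Mech n m) {α : ℝ} (h : M.Moral 0) : M.Moral α := by
  intro v i v' hG
  have h2 := h v i v' hG
  rw [zero_mul] at h2
  linarith

/-- payments of a winner do not depend on the own report -/
theorem price_const (M : Mech n m) (hM : M.Moral 1) (v : Fin n → Fin (m + 1)) (i : Fin n)
    (x x' : Fin (m + 1)) (hx : M.f (Function.update v i x) = some i)
    (hx' : M.f (Function.update v i x') = some i) :
    M.p (Function.update v i x) i ≤ M.p (Function.update v i x') i := by
  by_contra hcon
  push Not at hcon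
  have h := hM (Function.update v i x) i x'
  rw [Function.update_idem] at h
  rw [profit_winner M _ i _ hx, profit_winner M _ i _ hx'] at h
  have h2 := h (by linarith)
  have h3 : ∑ j ∈ univ.erase i, (M.profit j (Function.update v i x)
      (val m (Function.update v i x j)) -
        M.profit j (Function.update v i x') (val m (Function.update v i x j))) = 0 := by
    refine sum_eq_zero fun j hj => ?_
    have hji : j ≠ i := ne_of_mem_erase hj
    rw [profit_loser M _ j _ (by rw [hx]; simpa using hji.symm),
      profit_loser M _ j _ (by rw [hx']; simpa using hji.symm), sub_zero]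
  rw [h3] at h2
  linarith

open Classical in
/-- the price on a line (`2` if the player never wins there) -/
noncomputable def linePrice (M : Mech n m) (i : Fin n)
    (ℓ : Fin (m + 1) → (Fin n → Fin (m + 1))) : ℝ :=
  if h : ∃ x, M.f (ℓ x) = some i then M.p (ℓ h.choose) i else 2

noncomputable def price (M : Mech n m) (i : Fin n) (v : Fin n → Fin (m + 1)) : ℝ :=
  linePrice M i (fun x => Function.update v i x)

theorem price_update (M : Mech n m) (i : Fin n) (v : Fin n → Fin (m + 1)) (x : Fin (m + 1)) :
    price M i (Function.update v i x) = price M i v := by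
  unfold price
  simp only [Function.update_idem]

theorem price_nonneg (M : Mech n m) (i : Fin n) (v : Fin n → Fin (m + 1)) : 0 ≤ price M i v := by
  unfold price linePrice
  split_ifs
  · exact M.npt _ _
  · norm_num

theorem price_eq (M : Mech n m) (hM : M.Moral 1) (i : Fin n) (v : Fin n → Fin (m + 1))
    (x : Fin (m + 1)) (hx : M.f (Function.update v i x) = some i) :
    price M i v = M.p (Function.update v i x) i := by
  have hex : ∃ x, M.f (Function.update v i x) = some i := ⟨x, hx⟩
  unfold price linePrice
  rw [dif_pos hex]
  exact le_antisymm (price_const M hM v i _ _ hex.choose_spec hx)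
    (price_const M hM v i _ _ hx hex.choose_spec)

theorem profit_max (hm : 0 < m) (M : Mech n m) (hM : M.Moral 1) (v : Fin n → Fin (m + 1))
    (w : Fin n) (hw : M.f v = some w) (i : Fin n) :
    val m (v i) - price M i v ≤ val m (v w) - price M w v := by
  have hpw : price M w v = M.p v w := by
    have := price_eq M hM w v (v w) (by rw [Function.update_eq_self]; exact hw)
    rwa [Function.update_eq_self] at this
  have hnn : 0 ≤ val m (v w) - price M w v := by
    have h1 := M.ir v w
    rw [if_pos hw] at h1
    rw [hpw]; linarith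
  by_cases hiw : i = w
  · rw [hiw]
  by_cases hex : ∃ x, M.f (Function.update v i x) = some i
  · obtain ⟨x, hx⟩ := hex
    by_contra hcon
    push Not at hcon
    have h := hM v i x
    rw [profit_winner M _ i _ hx, ← price_eq M hM i v x hx,
      profit_loser M v i _ (by rw [hw]; simpa using fun h => hiw h.symm), sub_zero, one_mul] at h
    have h2 := h (by linarith)
    have h3 : ∑ j ∈ univ.erase i, (M.profit j v (val m (v j)) -
        M.profit j (Function.update v i x) (val m (v j))) = val m (v w) - price M w v := by
      rw [sum_eq_single w]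
      · rw [profit_winner M v w _ hw, profit_loser M _ w _ (by rw [hx]; simpa using hiw), hpw,
          sub_zero]
      · intro j hj hjw
        have hji : j ≠ i := ne_of_mem_erase hj
        rw [profit_loser M v j _ (by rw [hw]; simpa using fun h => hjw h.symm),
          profit_loser M _ j _ (by rw [hx]; simpa using fun h => hji h.symm), sub_zero]
      · intro h
        exact absurd (mem_erase.2 ⟨fun h' => hiw h'.symm, mem_univ _⟩) h
    rw [h3] at h2
    linarith
  · have : price M i v = 2 := by
      unfold price linePrice
      rw [dif_neg hex]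
    have := val_le_one hm (v i)
    linarith

/-- key of a line: lines with smaller keys are served first -/
noncomputable def key (M : Mech n m) (i : Fin n) (v : Fin n → Fin (m + 1)) : ℝ ×ₗ (ℝ ×ₗ Fin n) :=
  toLex (price M i v + ∑ j ∈ univ.erase i, val m (v j), toLex (-price M i v, i))

theorem key_update (M : Mech n m) (i : Fin n) (v : Fin n → Fin (m + 1)) (x : Fin (m + 1)) :
    key M i (Function.update v i x) = key M i v := by
  unfold key
  rw [price_update]
  have : ∑ j ∈ univ.erase i, val m (Function.update v i x j) = ∑ j ∈ univ.erase i, val m (v j) := by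
    refine sum_congr rfl fun j hj => ?_
    rw [Function.update_of_ne (ne_of_mem_erase hj)]
  rw [this]

open Classical in
/-- the assigned winner -/
noncomputable def asg (M : Mech n m) (v : Fin n → Fin (m + 1)) : Option (Fin n) :=
  if h : ∃ i, price M i v ≤ val m (v i) ∧ ∀ j, j ≠ i → key M i v < key M j v then some h.choose
  else none

theorem asg_spec (M : Mech n m) (v : Fin n → Fin (m + 1)) (i : Fin n) (h : asg M v = some i) :
    price M i v ≤ val m (v i) ∧ ∀ j, j ≠ i → key M i v < key M j v := by
  unfold asg at h
  split_ifs at h with hex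
  have := hex.choose_spec
  simp only [Option.some.injEq] at h
  rwa [h] at this

theorem asg_of (M : Mech n m) (v : Fin n → Fin (m + 1)) (i : Fin n)
    (h1 : price M i v ≤ val m (v i)) (h2 : ∀ j, j ≠ i → key M i v < key M j v) :
    asg M v = some i := by
  unfold asg
  have hex : ∃ i, price M i v ≤ val m (v i) ∧ ∀ j, j ≠ i → key M i v < key M j v := ⟨i, h1, h2⟩
  rw [dif_pos hex]
  congr 1
  by_contra hne
  have h3 := hex.choose_spec.2 i (fun h => hne h.symm)
  have h4 := h2 _ hne
  exact lt_asymm h3 h4

theorem rev_point (hm : 0 < m) (M : Mech n m) (hM : M.Moral 1) (v : Fin n → Fin (m + 1)) :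
    ∑ j, M.p v j ≤ ∑ i, (if asg M v = some i then price M i v else 0) := by
  rcases hf : M.f v with _ | w
  · rw [sum_eq_zero (fun j _ => p_zero M v j (by rw [hf]; simp))]
    refine sum_nonneg fun i _ => ?_
    split_ifs
    · exact price_nonneg M i v
    · exact le_rfl
  · have hpw : price M w v = M.p v w := by
      have := price_eq M hM w v (v w) (by rw [Function.update_eq_self]; exact hf)
      rwa [Function.update_eq_self] at this
    have hnn : 0 ≤ val m (v w) - price M w v := by
      have h1 := M.ir v w
      rw [if_pos hf] at h1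
      rw [hpw]; linarith
    have hL : ∑ j, M.p v j = price M w v := by
      rw [sum_eq_single w, hpw]
      · intro j _ hj
        exact p_zero M v j (by rw [hf]; simpa using fun h => hj h.symm)
      · simp
    obtain ⟨i, _, hi⟩ := exists_min_image (univ : Finset (Fin n)) (fun i => key M i v) ⟨w, mem_univ _⟩
    have hinj : ∀ j, j ≠ i → key M i v < key M j v := by
      intro j hj
      refine lt_of_le_of_ne (hi j (mem_univ _)) ?_
      intro h
      apply hj
      have h1 := congrArg (fun t : ℝ ×ₗ (ℝ ×ₗ Fin n) => (ofLex (ofLex t).2).2) h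
      simpa [key] using h1.symm
    have hle := hi w (mem_univ _)
    have hmax := profit_max hm M hM v w hf i
    have hS : ∀ k, ∑ j ∈ univ.erase k, val m (v j) = ∑ j, val m (v j) - val m (v k) := by
      intro k
      rw [← add_sum_erase univ (fun j => val m (v j)) (mem_univ k)]; ring
    have hle' : key M i v ≤ key M w v := hle
    unfold key at hle'
    rw [Prod.Lex.toLex_le_toLex] at hle'
    simp only [hS] at hle'
    have hacc : price M i v ≤ val m (v i) := by
      rcases hle' with h | ⟨h, -⟩
      · linarith
      · linarith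
    have hPP : price M w v ≤ price M i v := by
      rcases hle' with h | ⟨h, h'⟩
      · linarith
      · rw [Prod.Lex.toLex_le_toLex] at h'
        simp only at h'
        rcases h' with h' | ⟨h', -⟩
        · linarith
        · linarith
    have hA := asg_of M v i hacc hinj
    rw [hL, sum_eq_single i, if_pos hA]
    · exact hPP
    · intro j _ hj
      rw [if_neg]
      rw [hA]
      simpa using fun h => hj h.symm
    · simp

end Basic

section Upper

variable {n m : ℕ} (F : Fin n → Fin (m + 1) → ℝ) (hF : ∀ i k, 0 < F i k)

/-- the sets of high virtual values -/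
noncomputable def US (c : ℝ) (i : Fin n) : Finset (Fin (m + 1)) :=
  univ.filter (fun x => c ≤ psi (F i) x)

include hF

theorem cell_int (A : (Fin n → Fin (m + 1)) → Option (Fin n)) (i : Fin n)
    (v : Fin n → Fin (m + 1)) (a b : ℝ) :
    IntervalIntegrable (fun c => cellPay A (US F c) F i v) volume a b := by
  unfold cellPay
  split_ifs
  · have h := (min_al_anti (hF i) (∑ x ∈ winSet A i v, F i x)).intervalIntegrable (μ := volume)
      (a := a) (b := b)
    exact h.div_const _
  · simp

theorem line_bound (hm : 0 < m) (A : (Fin n → Fin (m + 1)) → Option (Fin n)) (i : Fin n)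
    (P : (Fin n → Fin (m + 1)) → ℝ)
    (hP : ∀ v x, P (Function.update v i x) = P v)
    (hacc : ∀ v, A v = some i → P v ≤ val m (v i)) :
    ∑ v, (∏ j, F j (v j)) * (if A v = some i then P v else 0)
      ≤ ∑ v, (∏ j, F j (v j)) * ∫ c in (0 : ℝ)..1, cellPay A (US F c) F i v := by
  have hne : (univ : Finset (Fin (m + 1))).Nonempty := ⟨0, mem_univ _⟩
  refine sum_le_of_lines (Y := fun _ => Fin (m + 1)) F (fun i x => (hF i x).le) i
    (sum_pos (fun x _ => hF i x) hne) _ _ ?_
  intro v
  have hW : ∀ z, winSet A i (Function.update v i z) = winSet A i v := by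
    intro z
    simp only [winSet, Function.update_idem]
  set μ := ∑ x ∈ winSet A i v, F i x with hμ
  have hL : ∑ z, F i z * (if A (Function.update v i z) = some i then P (Function.update v i z) else 0)
      = P v * μ := by
    rw [hμ, mul_sum]
    simp only [winSet, sum_filter]
    refine sum_congr rfl fun z _ => ?_
    rw [hP]
    split_ifs <;> ring
  have hz : ∀ z, F i z * ∫ c in (0 : ℝ)..1, cellPay A (US F c) F i (Function.update v i z)
      = (if A (Function.update v i z) = some i then F i z else 0) *
        ((∫ c in (0 : ℝ)..1, min μ (al (F i) c)) / μ) := by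
    intro z
    unfold cellPay
    simp only [hW]
    split_ifs with h
    · rw [intervalIntegral.integral_div]
      rfl
    · simp
  have hR : ∑ z, F i z * ∫ c in (0 : ℝ)..1, cellPay A (US F c) F i (Function.update v i z)
      = μ * ((∫ c in (0 : ℝ)..1, min μ (al (F i) c)) / μ) := by
    rw [sum_congr rfl (fun z _ => hz z), ← sum_mul, ← sum_filter]
    rfl
  rw [hL, hR]
  rcases eq_or_ne μ 0 with h0 | h0
  · rw [h0]; simp
  · rw [mul_div_cancel₀ _ h0]
    refine price_le (hF i) hm (winSet A i v) (P v) ?_
    intro x hx
    have hx' : A (Function.update v i x) = some i := by simpa [winSet] using hx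
    have := hacc _ hx'
    rw [hP, Function.update_self] at this
    exact this

theorem rhs_eq (c : ℝ) : rhsF (US F c) F
    = ∑ v : Fin n → Fin (m + 1), (∏ j, F j (v j)) * (if ∃ i, c ≤ psi (F i) (v i) then 1 else 0) := by
  classical
  unfold rhsF
  have h1 : ∏ i, ∑ x, F i x = ∑ v : Fin n → Fin (m + 1), ∏ j, F j (v j) := by
    rw [prod_univ_sum, Fintype.piFinset_univ]
  have h2 : ∏ i, (∑ x, F i x - ∑ x ∈ US F c i, F i x)
      = ∑ v : Fin n → Fin (m + 1), (∏ j, F j (v j)) * (if ∃ i, c ≤ psi (F i) (v i) then 0 else 1) := by
    have : ∀ i, (∑ x, F i x - ∑ x ∈ US F c i, F i x) = ∑ x, F i x * (if c ≤ psi (F i) x then 0 else 1) := by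
      intro i
      simp only [US, sum_filter, ← sum_sub_distrib]
      refine sum_congr rfl fun x _ => ?_
      split_ifs <;> ring
    rw [prod_congr rfl (fun i _ => this i), prod_univ_sum, Fintype.piFinset_univ]
    refine sum_congr rfl fun v _ => ?_
    rw [prod_mul_distrib]
    congr 1
    split_ifs with h
    · obtain ⟨i, hi⟩ := h
      exact prod_eq_zero (mem_univ i) (if_pos hi)
    · push Not at h
      exact prod_eq_one fun i _ => if_neg (not_le.2 (h i))
  rw [h1, h2, ← sum_sub_distrib]
  refine sum_congr rfl fun v _ => ?_
  split_ifs <;> ring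

theorem upper (hm : 0 < m) (M : Mech n m) (hM : M.Moral 1) :
    M.rev F ≤ ∫ c in (0 : ℝ)..1, rhsF (US F c) F := by
  have h1 : M.rev F ≤ ∑ i, ∑ v, (∏ j, F j (v j)) * (if asg M v = some i then price M i v else 0) := by
    unfold Mech.rev
    rw [sum_comm]
    refine sum_le_sum fun v _ => ?_
    rw [← mul_sum]
    exact mul_le_mul_of_nonneg_left (rev_point hm M hM v) (prod_nonneg fun j _ => (hF j _).le)
  refine h1.trans ?_
  have h2 : ∀ i, ∑ v, (∏ j, F j (v j)) * (if asg M v = some i then price M i v else 0)
      ≤ ∑ v, (∏ j, F j (v j)) * ∫ c in (0 : ℝ)..1, cellPay (asg M) (US F c) F i v := by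
    intro i
    exact line_bound F hF hm (asg M) i (price M i) (fun v x => price_update M i v x)
      (fun v hv => (asg_spec M v i hv).1)
  refine (sum_le_sum fun i _ => h2 i).trans ?_
  have hint : ∀ i v, IntervalIntegrable (fun c => (∏ j, F j (v j)) * cellPay (asg M) (US F c) F i v)
      volume 0 1 := fun i v => (cell_int F hF (asg M) i v 0 1).const_mul _
  have h3 : ∑ i, ∑ v, (∏ j, F j (v j)) * ∫ c in (0 : ℝ)..1, cellPay (asg M) (US F c) F i v
      = ∫ c in (0 : ℝ)..1, lhsF (asg M) (US F c) F := by
    have : ∀ c, lhsF (asg M) (US F c) F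
        = ∑ i, ∑ v, (∏ j, F j (v j)) * cellPay (asg M) (US F c) F i v := by
      intro c
      unfold lhsF
      rw [sum_comm]
      exact sum_congr rfl fun v _ => mul_sum _ _ _
    simp only [this]
    rw [intervalIntegral.integral_finsetSum]
    · refine sum_congr rfl fun i _ => ?_
      rw [intervalIntegral.integral_finsetSum]
      · refine sum_congr rfl fun v _ => ?_
        rw [intervalIntegral.integral_const_mul]
      · intro v _
        exact hint i v
    · intro i _
      have h6 : (fun c => ∑ v, (∏ j, F j (v j)) * cellPay (asg M) (US F c) F i v)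
          = ∑ v, fun c => (∏ j, F j (v j)) * cellPay (asg M) (US F c) F i v := by
        funext c
        rw [Finset.sum_apply]
      rw [h6]
      exact IntervalIntegrable.sum _ fun v _ => hint i v
  rw [h3]
  refine intervalIntegral.integral_mono_on zero_le_one ?_ ?_ ?_
  · have : (fun c => lhsF (asg M) (US F c) F)
        = ∑ v, fun c => (∏ j, F j (v j)) * ∑ i, cellPay (asg M) (US F c) F i v := by
      funext c
      rw [Finset.sum_apply]
      rfl
    rw [this]
    refine IntervalIntegrable.sum _ fun v _ => ?_
    refine IntervalIntegrable.const_mul ?_ _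
    have h5 : (fun c => ∑ i, cellPay (asg M) (US F c) F i v)
        = ∑ i, fun c => cellPay (asg M) (US F c) F i v := by
      funext c
      rw [Finset.sum_apply]
    rw [h5]
    exact IntervalIntegrable.sum _ fun i _ => cell_int F hF (asg M) i v 0 1
  · refine Antitone.intervalIntegrable ?_
    intro a b hab
    simp only
    rw [rhs_eq F hF, rhs_eq F hF]
    refine sum_le_sum fun v _ => ?_
    refine mul_le_mul_of_nonneg_left ?_ (prod_nonneg fun j _ => (hF j _).le)
    split_ifs with h1 h2
    · exact le_rfl
    · exact absurd (h1.imp fun i hi => hab.trans hi) h2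
    · exact zero_le_one
    · exact le_rfl
  · intro c _
    exact real_ineq (asg M) (key M) (fun i v x => key_update M i v x)
      (fun v i hv j hj => (asg_spec M v i hv).2 j hj) (US F c) F hF

end Upper

section Myerson

variable {n m : ℕ} (F : Fin n → Fin (m + 1) → ℝ)

/-- `i` wins in the optimal truthful mechanism -/
def Wins (v : Fin n → Fin (m + 1)) (i : Fin n) : Prop :=
  0 ≤ psi (F i) (v i) ∧ ∀ j, j ≠ i →
    (psi (F j) (v j) < psi (F i) (v i) ∨ (psi (F j) (v j) = psi (F i) (v i) ∧ i < j))

open Classical in
/-- allocation rule of the optimal truthful mechanism -/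
noncomputable def fT (v : Fin n → Fin (m + 1)) : Option (Fin n) :=
  if h : ∃ i, Wins F v i then some h.choose else none

theorem fT_iff (v : Fin n → Fin (m + 1)) (i : Fin n) : fT F v = some i ↔ Wins F v i := by
  unfold fT
  constructor
  · intro h
    split_ifs at h with hex
    have := hex.choose_spec
    simp only [Option.some.injEq] at h
    rwa [h] at this
  · intro h
    have hex : ∃ i, Wins F v i := ⟨i, h⟩
    rw [dif_pos hex]
    congr 1
    by_contra hne
    have h1 := hex.choose_spec.2 i (fun h => hne h.symm)
    have h2 := h.2 _ hne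
    rcases h1 with h1 | ⟨h1, h1'⟩ <;> rcases h2 with h2 | ⟨h2, h2'⟩
    · linarith
    · linarith
    · linarith
    · exact lt_asymm h1' h2'

open Classical in
/-- threshold index -/
noncomputable def thr (i : Fin n) (v : Fin n → Fin (m + 1)) : Fin (m + 1) :=
  if h : (univ.filter (fun x => fT F (Function.update v i x) = some i)).Nonempty then
    (univ.filter (fun x => fT F (Function.update v i x) = some i)).min' h else 0

theorem thr_update (i : Fin n) (v : Fin n → Fin (m + 1)) (x : Fin (m + 1)) :
    thr F i (Function.update v i x) = thr F i v := by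
  unfold thr
  simp only [Function.update_idem]

theorem thr_le (i : Fin n) (v : Fin n → Fin (m + 1)) (x : Fin (m + 1))
    (h : fT F (Function.update v i x) = some i) : thr F i v ≤ x := by
  classical
  unfold thr
  have hmem : x ∈ univ.filter (fun x => fT F (Function.update v i x) = some i) := by simpa using h
  rw [dif_pos ⟨x, hmem⟩]
  exact min'_le _ _ hmem

theorem thr_wins (i : Fin n) (v : Fin n → Fin (m + 1)) (x : Fin (m + 1))
    (h : fT F (Function.update v i x) = some i) :
    fT F (Function.update v i (thr F i v)) = some i := by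
  classical
  have hmem : x ∈ univ.filter (fun x => fT F (Function.update v i x) = some i) := by simpa using h
  have h1 := min'_mem _ (⟨x, hmem⟩ :
    (univ.filter (fun x => fT F (Function.update v i x) = some i)).Nonempty)
  rw [mem_filter] at h1
  unfold thr
  rw [dif_pos ⟨x, hmem⟩]
  exact h1.2

theorem wins_up {v : Fin n → Fin (m + 1)} {i : Fin n} {x y : Fin (m + 1)}
    (hxy : psi (F i) x ≤ psi (F i) y) (h : Wins F (Function.update v i x) i) :
    Wins F (Function.update v i y) i := by
  obtain ⟨h1, h2⟩ := h
  rw [Function.update_self] at h1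
  refine ⟨by rw [Function.update_self]; linarith, fun j hj => ?_⟩
  have h3 := h2 j hj
  rw [Function.update_self, Function.update_of_ne hj] at h3
  rw [Function.update_self, Function.update_of_ne hj]
  rcases h3 with h3 | ⟨h3, h3'⟩
  · left; linarith
  · rcases lt_or_eq_of_le hxy with h4 | h4
    · left; linarith
    · right; exact ⟨by linarith, h3'⟩

/-- the optimal truthful mechanism -/
noncomputable def TM : Mech n m where
  f := fT F
  p b i := if fT F b = some i then val m (thr F i b) else 0
  ir b i := by
    split_ifs with h
    · have h1 : fT F (Function.update b i (b i)) = some i := by rwa [Function.update_eq_self]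
      have h2 := thr_le F i b (b i) h1
      unfold val
      have h3 : ((thr F i b : ℕ) : ℝ) ≤ ((b i : ℕ) : ℝ) := by exact_mod_cast h2
      gcongr
    · exact le_rfl
  npt b i := by
    split_ifs
    · exact val_nonneg _
    · exact le_rfl

variable {F} (hF : ∀ i k, 0 < F i k)

include hF

theorem TM_truthful (α : ℝ) : (TM F).Moral α := by
  intro v i v' hG
  exfalso
  have hwin : ∀ x, thr F i v ≤ x → (∃ y, fT F (Function.update v i y) = some i) →
      fT F (Function.update v i x) = some i := by
    intro x hx ⟨y, hy⟩
    have h1 := thr_wins F i v y hy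
    rw [fT_iff] at h1 ⊢
    exact wins_up F (psi_mono (hF i) hx) h1
  have hprof : ∀ x, (TM F).profit i (Function.update v i x) (val m (v i))
      = if fT F (Function.update v i x) = some i then val m (v i) - val m (thr F i v) else 0 := by
    intro x
    unfold Mech.profit TM
    simp only
    rw [thr_update]
    split_ifs <;> simp
  have h0 := hprof (v i)
  rw [Function.update_eq_self] at h0
  rw [hprof v', h0] at hG
  by_cases h1 : fT F (Function.update v i v') = some i
  · rw [if_pos h1] at hG
    by_cases h2 : thr F i v ≤ v i
    · have h3 := hwin (v i) h2 ⟨v', h1⟩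
      rw [Function.update_eq_self] at h3
      rw [if_pos h3] at hG
      linarith
    · push Not at h2
      have h3 : val m (v i) ≤ val m (thr F i v) := by
        unfold val
        have h3 : ((v i : ℕ) : ℝ) ≤ ((thr F i v : ℕ) : ℝ) := by exact_mod_cast h2.le
        gcongr
      have h4 : ¬ fT F v = some i := by
        intro h4
        have := thr_le F i v (v i) (by rwa [Function.update_eq_self])
        exact absurd this (not_le.2 h2)
      rw [if_neg h4] at hG
      linarith
  · rw [if_neg h1] at hG
    split_ifs at hG with h2
    · have h5 := thr_le F i v (v i) (by rwa [Function.update_eq_self])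
      have h3 : val m (thr F i v) ≤ val m (v i) := by
        unfold val
        have h3 : ((thr F i v : ℕ) : ℝ) ≤ ((v i : ℕ) : ℝ) := by exact_mod_cast h5
        gcongr
      linarith
    · linarith

/-- the virtual value of the winner -/
noncomputable def mx (F : Fin n → Fin (m + 1) → ℝ) (v : Fin n → Fin (m + 1)) : ℝ :=
  ∑ i, (if fT F v = some i then psi (F i) (v i) else 0)

theorem lower (hm : 0 < m) : ∑ v, (∏ j, F j (v j)) * mx F v ≤ (TM F).rev F := by
  have h1 : ∑ v, (∏ j, F j (v j)) * mx F v
      = ∑ i, ∑ v, (∏ j, F j (v j)) * (if fT F v = some i then psi (F i) (v i) else 0) := by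
    rw [sum_comm]
    exact sum_congr rfl fun v _ => mul_sum _ _ _
  have h2 : (TM F).rev F
      = ∑ i, ∑ v, (∏ j, F j (v j)) * (if fT F v = some i then val m (thr F i v) else 0) := by
    unfold Mech.rev TM
    rw [sum_comm]
    exact sum_congr rfl fun v _ => mul_sum _ _ _
  rw [h1, h2]
  refine sum_le_sum fun i _ => ?_
  have hne : (univ : Finset (Fin (m + 1))).Nonempty := ⟨0, mem_univ _⟩
  refine sum_le_of_lines (Y := fun _ => Fin (m + 1)) F (fun i x => (hF i x).le) i
    (sum_pos (fun x _ => hF i x) hne) _ _ ?_
  intro v
  simp only [Function.update_self, thr_update]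
  by_cases hex : ∃ y, fT F (Function.update v i y) = some i
  · obtain ⟨y, hy⟩ := hex
    set τ := thr F i v with hτ
    have hw := thr_wins F i v y hy
    rw [← hτ] at hw
    have hiff : ∀ z, fT F (Function.update v i z) = some i ↔ τ ≤ z := by
      intro z
      constructor
      · intro h; exact thr_le F i v z h
      · intro h
        rw [fT_iff] at hw ⊢
        exact wins_up F (psi_mono (hF i) h) hw
    have h3 := vertex (hF i) hm τ (by
        have := ((fT_iff F _ _).1 hw).1
        rwa [Function.update_self] at this) (by
        intro x hx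
        by_contra hcon
        push Not at hcon
        have h4 := wins_up F hcon ((fT_iff F _ _).1 hw)
        rw [← fT_iff, hiff] at h4
        exact absurd h4 (not_le.2 hx))
    have e1 : ∑ z, F i z * (if fT F (Function.update v i z) = some i then psi (F i) z else 0)
        = ∑ x, (if τ ≤ x then F i x * psi (F i) x else 0) := by
      refine sum_congr rfl fun z _ => ?_
      simp only [hiff z]
      split_ifs <;> ring
    have e2 : ∑ z, F i z * (if fT F (Function.update v i z) = some i then val m τ else 0)
        = ((τ : ℕ) : ℝ) / m * ∑ x, (if τ ≤ x then F i x else 0) := by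
      rw [mul_sum]
      refine sum_congr rfl fun z _ => ?_
      simp only [hiff z, val]
      split_ifs <;> ring
    rw [e1, e2]
    exact h3
  · push Not at hex
    refine le_of_eq (sum_congr rfl fun z _ => ?_)
    rw [if_neg (hex z), if_neg (hex z)]

theorem exists_winner (v : Fin n → Fin (m + 1)) (i : Fin n) (hi : 0 ≤ psi (F i) (v i)) :
    ∃ w, fT F v = some w ∧ psi (F i) (v i) ≤ psi (F w) (v w) := by
  obtain ⟨w, _, hw⟩ := exists_max_image (univ : Finset (Fin n))
    (fun j => (toLex (psi (F j) (v j), OrderDual.toDual j) : ℝ ×ₗ (Fin n)ᵒᵈ)) ⟨i, mem_univ _⟩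
  have hle : ∀ j, psi (F j) (v j) ≤ psi (F w) (v w) := by
    intro j
    have := hw j (mem_univ _)
    rw [Prod.Lex.toLex_le_toLex] at this
    rcases this with h | ⟨h, -⟩
    · exact h.le
    · exact h.le
  refine ⟨w, (fT_iff F v w).2 ⟨hi.trans (hle i), fun j hj => ?_⟩, hle i⟩
  have := hw j (mem_univ _)
  rw [Prod.Lex.toLex_le_toLex] at this
  rcases this with h | ⟨h, h'⟩
  · left; exact h
  · right
    refine ⟨h, lt_of_le_of_ne ?_ hj.symm⟩
    exact h'

theorem mx_of {v : Fin n → Fin (m + 1)} {w : Fin n} (h : fT F v = some w) :
    mx F v = psi (F w) (v w) := by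
  unfold mx
  rw [sum_eq_single w, if_pos h]
  · intro j _ hj
    rw [if_neg]
    rw [h]
    simpa using fun h => hj h.symm
  · simp

theorem int_eq (hm : 0 < m) :
    ∫ c in (0 : ℝ)..1, rhsF (US F c) F = ∑ v, (∏ j, F j (v j)) * mx F v := by
  classical
  have hmx : ∀ v, 0 ≤ mx F v ∧ mx F v ≤ 1 := by
    intro v
    rcases h : fT F v with _ | w
    · have : mx F v = 0 := by
        unfold mx
        exact sum_eq_zero fun i _ => by rw [h]; simp
      rw [this]
      exact ⟨le_rfl, zero_le_one⟩
    · rw [mx_of hF h]
      exact ⟨((fT_iff F v w).1 h).1, psi_le_one (hF w) hm _⟩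
  have h1 : ∀ c ∈ Set.Ioo (0 : ℝ) 1, rhsF (US F c) F
      = ∑ v : Fin n → Fin (m + 1), (∏ j, F j (v j)) * (if c ≤ mx F v then 1 else 0) := by
    intro c hc
    rw [rhs_eq F hF]
    refine sum_congr rfl fun v _ => ?_
    congr 1
    have : (∃ i, c ≤ psi (F i) (v i)) ↔ c ≤ mx F v := by
      constructor
      · rintro ⟨i, hi⟩
        obtain ⟨w, hw, hle⟩ := exists_winner hF v i (hc.1.le.trans hi)
        rw [mx_of hF hw]
        exact hi.trans hle
      · intro h
        rcases hf : fT F v with _ | w
        · have : mx F v = 0 := by
            unfold mx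
            exact sum_eq_zero fun i _ => by rw [hf]; simp
          rw [this] at h
          exact absurd hc.1 (not_lt.2 h)
        · rw [mx_of hF hf] at h
          exact ⟨w, h⟩
    simp only [this]
  rw [integral_congr_Ioo_of_le zero_le_one h1, intervalIntegral.integral_finsetSum]
  · refine sum_congr rfl fun v _ => ?_
    rw [intervalIntegral.integral_const_mul, integral_ind _ _ _ zero_le_one (hmx v).2, sub_zero,
      max_eq_left (hmx v).1]
  · intro v _
    refine IntervalIntegrable.const_mul ?_ _
    have hanti : Antitone (fun c : ℝ => if c ≤ mx F v then (1 : ℝ) else 0) := by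
      intro x y hxy
      simp only
      split_ifs with h1 h2
      · exact le_rfl
      · linarith
      · exact zero_le_one
      · exact le_rfl
    exact hanti.intervalIntegrable

end Myerson

/-- **Main theorem.** For all independent full-support value distributions (identical or not,
regular or not), some truthful mechanism has revenue at least that of every `α`-moral mechanism,
for all `α ∈ [0,1]`; in particular the optimal revenues coincide. -/
theorem result (n m : ℕ) (hm : 0 < m) (F : Fin n → Fin (m + 1) → ℝ)
    (hpos : ∀ i k, 0 < F i k) (_hsum : ∀ i, ∑ k, F i k = 1) :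
    (∃ T : Mech n m, T.Moral 0 ∧
      ∀ α : ℝ, 0 ≤ α → α ≤ 1 → ∀ M : Mech n m, M.Moral α → M.rev F ≤ T.rev F) ∧
    ∀ α : ℝ, 0 ≤ α → α ≤ 1 →
      sSup {r : ℝ | ∃ M : Mech n m, M.Moral α ∧ M.rev F = r} =
        sSup {r : ℝ | ∃ M : Mech n m, M.Moral 0 ∧ M.rev F = r} := by
  have key : ∀ α : ℝ, 0 ≤ α → α ≤ 1 → ∀ M : Mech n m, M.Moral α → M.rev F ≤ (TM F).rev F := by
    intro α h0 h1 M hM
    have h2 := upper F hpos hm M (moral_one M h0 h1 hM)
    rw [int_eq hpos hm] at h2
    exact h2.trans (lower hpos hm)
  have hg : ∀ α : ℝ, 0 ≤ α → α ≤ 1 →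
      IsGreatest {r : ℝ | ∃ M : Mech n m, M.Moral α ∧ M.rev F = r} ((TM F).rev F) := by
    intro α h0 h1
    refine ⟨⟨TM F, TM_truthful hpos α, rfl⟩, ?_⟩
    rintro r ⟨M, hM, rfl⟩
    exact key α h0 h1 M hM
  refine ⟨⟨TM F, TM_truthful hpos 0, key⟩, fun α h0 h1 => ?_⟩
  rw [(hg α h0 h1).csSup_eq, (hg 0 le_rfl zero_le_one).csSup_eq]

end Pool.Agent.Results.MP_e3b71d_lc.MoralEqualsTruthful
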